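import Mathlib
import Pool.Graph.R_pool_sql_team_seeded_b0a926ef.R919.FF.Def

/-!
# Families of Weil numbers without relations: definitions

`PPower p z`: some power of `z` with a positive exponent is an integral power of `p`. `mulSpan Λ` is the
multiplicative group generated by the nonzero elements of the set `Λ` of complex numbers. `RankModLe p Λ R`: its
rank, modulo the numbers with `PPower`, is at most `R`. `IndependentModP p G`: the groups `G i` are independent
modulo these numbers.
-/

set_option autoImplicit false

namespace Pool.Agent.KS6_11.F

open Polynomial Pool.Agent.R919.FF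

/-- The monic polynomials `f i` (the characteristic polynomials of the Frobenius endomorphisms of abelian varieties
over the fields with `p ^ a i` elements) have no multiplicative relations between their roots, except for those
which come from duality: the groups generated by the roots of the different `f i` are independent modulo powers of
`p`; in each `f i`, any roots no two of which have the product `p ^ a i` are multiplicatively independent modulo
powers of `p`; and no root has the square `p ^ a i`. (So no root is supersingular.) The family may be infinite. -/
structure NoRelations (p : ℕ) {ι : Type} (a : ι → ℕ) (f : ι → ℤ[X]) : Prop where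
  pos : ∀ i, 0 < a i
  monic : ∀ i, (f i).Monic
  independent : IndependentModP p fun i => mulSpan {z : ℂ | aeval z (f i) = 0}
  maximal : ∀ (i : ι) (T : Finset ℂ), (∀ z ∈ T, aeval z (f i) = 0) →
    (∀ z ∈ T, ∀ z' ∈ T, z * z' ≠ (p : ℂ) ^ a i) → ∀ n : ℂ → ℤ, PPower p (∏ z ∈ T, z ^ n z) → ∀ z ∈ T, n z = 0
  ne : ∀ (i : ι) (z : ℂ), aeval z (f i) = 0 → z * z ≠ (p : ℂ) ^ a i

/-- `g` is monic and its complex roots are `t`-th powers of complex roots of `f`: the characteristic
polynomial of the Frobenius endomorphism of an abelian variety with the characteristic polynomial `f`, after the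
extension of degree `t` of the base field. -/
def IsBaseChange (t : ℕ) (f g : ℤ[X]) : Prop :=
  g.Monic ∧ ∀ z : ℂ, aeval z g = 0 → ∃ y : ℂ, aeval y f = 0 ∧ y ^ t = z

/-- The constant coefficient of the polynomial `χ` is not zero, and the roots of `χ` are generated by the elements of
`Λ`, up to powers of `p` and up to roots: if `ρ` is a root, then `ρ ^ M γ` is, up to roots, a power of `p`, for
some `M > 0` and some `γ` in the multiplicative group generated by `Λ`. -/
def RootsFrom (p : ℕ) (Λ : Set ℂ) (χ : ℚ[X]) : Prop :=
  χ.coeff 0 ≠ 0 ∧ ∀ ρ : ℂ, aeval ρ χ = 0 → ∃ M : ℕ, 0 < M ∧ ∃ γ ∈ mulSpan Λ, PPower p (ρ ^ M * (γ : ℂ))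

end Pool.Agent.KS6_11.F
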