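import Pool.Agent.KS6_11.F.OnePl

/-!
# Ordinary elliptic curves
-/

set_option autoImplicit false
set_option linter.unusedVariables false
set_option linter.unusedSectionVars false

namespace Pool.Agent.KS6_11.F

open Polynomial Pool.Agent.R919.FF

noncomputable section

/-- the polynomial `X ^ 2 - b X + q` -/
def ellPoly (q : ℕ) (b : ℤ) : ℤ[X] := X ^ 2 - C b * X + C (q : ℤ)

theorem ellPoly_monic (q : ℕ) (b : ℤ) : (ellPoly q b).Monic := by
  unfold ellPoly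
  monicity!

theorem ellPoly_root {q : ℕ} {b : ℤ} {z : ℂ} : aeval z (ellPoly q b) = 0 ↔ z ^ 2 - b * z + q = 0 := by
  unfold ellPoly
  rw [map_add, map_sub, map_mul, map_pow, aeval_X, aeval_C, aeval_C]
  simp

theorem exists_roots {q : ℕ} {b : ℤ} (hb : b ^ 2 < 4 * q) :
    ∃ α β : ℂ, α + β = b ∧ α * β = q ∧ α ≠ β ∧ ‖α‖ ^ 2 = q ∧ ‖β‖ ^ 2 = q := by
  have hD : (0 : ℝ) < 4 * q - (b : ℝ) ^ 2 := by
    have : ((b ^ 2 : ℤ) : ℝ) < ((4 * q : ℤ) : ℝ) := by exact_mod_cast hb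
    push_cast at this
    linarith
  set t : ℝ := Real.sqrt (4 * q - (b : ℝ) ^ 2) with ht
  have ht2 : t ^ 2 = 4 * q - (b : ℝ) ^ 2 := Real.sq_sqrt hD.le
  have ht0 : 0 < t := Real.sqrt_pos.2 hD
  have hn : ∀ s : ℝ, s ^ 2 = t ^ 2 → ‖(((b : ℝ) / 2 : ℝ) : ℂ) + ((s / 2 : ℝ) : ℂ) * Complex.I‖ ^ 2 = q := by
    intro s hs
    rw [← Complex.normSq_eq_norm_sq, Complex.normSq_add_mul_I]
    nlinarith
  refine ⟨(((b : ℝ) / 2 : ℝ) : ℂ) + ((t / 2 : ℝ) : ℂ) * Complex.I,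
    (((b : ℝ) / 2 : ℝ) : ℂ) + ((-t / 2 : ℝ) : ℂ) * Complex.I, ?_, ?_, ?_, hn t rfl, hn (-t) (by ring)⟩
  · push_cast
    ring
  · have h1 : (t : ℂ) ^ 2 = 4 * q - (b : ℂ) ^ 2 := by exact_mod_cast congrArg (fun x : ℝ => (x : ℂ)) ht2
    push_cast
    have hI : Complex.I ^ 2 = -1 := Complex.I_sq
    linear_combination (1 / 4 : ℂ) * h1 - (t : ℂ) ^ 2 / 4 * hI
  · intro h
    have h1 := congrArg Complex.im h
    simp at h1
    linarith

/-- **Ordinary elliptic curves**, no two of them isogenous over an extension of their fields of definition, have no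
relations. -/
theorem noRelations_ell {p : ℕ} (hp : p.Prime) {ι : Type} {a : ι → ℕ} (ha : ∀ i, 0 < a i) {b : ι → ℤ}
    (hord : ∀ i, ¬ (p : ℤ) ∣ b i) (hb : ∀ i, b i ^ 2 < 4 * (p : ℤ) ^ a i)
    (hD : ∀ i j, i ≠ j → ¬ IsSquare ((b i ^ 2 - 4 * (p : ℤ) ^ a i) * (b j ^ 2 - 4 * (p : ℤ) ^ a j))) :
    NoRelations p a fun i => ellPoly (p ^ a i) (b i) := by
  classical
  have hp0 : (p : ℂ) ≠ 0 := Nat.cast_ne_zero.2 hp.ne_zero
  have h1 : ∀ i, ∃ α β : ℂ, α + β = b i ∧ α * β = (p : ℂ) ^ a i ∧ α ≠ β ∧ ‖α‖ ^ 2 = (p : ℝ) ^ a i ∧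
      ‖β‖ ^ 2 = (p : ℝ) ^ a i := by
    intro i
    have h2 := exists_roots (q := p ^ a i) (b := b i) (by push_cast; exact hb i)
    push_cast at h2
    exact h2
  choose α β hsum hprod hne hα hβ using h1
  have hq0 : ∀ i, ((p : ℂ) ^ a i) ≠ 0 := fun i => pow_ne_zero (a i) hp0
  have hα0 : ∀ i, α i ≠ 0 := fun i h => hq0 i (by rw [← hprod i, h, zero_mul])
  have hβ0 : ∀ i, β i ≠ 0 := fun i h => hq0 i (by rw [← hprod i, h, mul_zero])
  have hroot : ∀ i (z : ℂ), aeval z (ellPoly (p ^ a i) (b i)) = 0 → z = α i ∨ z = β i := by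
    intro i z hz
    rw [ellPoly_root] at hz
    have h2 : (z - α i) * (z - β i) = 0 := by
      have h3 : (z - α i) * (z - β i) = z ^ 2 - (α i + β i) * z + α i * β i := by ring
      rw [h3, hsum, hprod, ← hz]
      push_cast
      ring
    rcases mul_eq_zero.1 h2 with h3 | h3
    · exact Or.inl (sub_eq_zero.1 h3)
    · exact Or.inr (sub_eq_zero.1 h3)
  have hαp : ∀ i, ¬ PPower p (α i) := fun i => not_ppower hp (ha i) (hsum i) (hprod i) (hα i) (hord i)
  have hβp : ∀ i, ¬ PPower p (β i) := fun i =>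
    not_ppower hp (ha i) ((add_comm _ _).trans (hsum i)) ((mul_comm _ _).trans (hprod i)) (hβ i) (hord i)
  have hpp : ∀ i (z : ℂ), aeval z (ellPoly (p ^ a i) (b i)) = 0 → z ≠ 0 ∧ ¬ PPower p z := by
    intro i z hz
    rcases hroot i z hz with rfl | rfl
    · exact ⟨hα0 i, hαp i⟩
    · exact ⟨hβ0 i, hβp i⟩
  refine ⟨ha, fun i => ellPoly_monic _ _, ?_, ?_, ?_⟩
  · refine independentModP_of_weil (a := b) (e := a) (α := fun i => Units.mk0 (α i) (hα0 i))
      (β := fun i => Units.mk0 (β i) (hβ0 i)) hsum hprod hne hD hp0 fun i z hz => Or.inr (hroot i z hz)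
  · intro i T hT hTT n hn z hz
    have hTz : T = {z} := by
      ext y
      rw [Finset.mem_singleton]
      refine ⟨fun hy => ?_, fun h => h ▸ hz⟩
      by_contra hyz
      have h2 := hroot i z (hT z hz)
      have h3 := hroot i y (hT y hy)
      rcases h2 with rfl | rfl
      · rcases h3 with rfl | rfl
        · exact hyz rfl
        · exact hTT _ hz _ hy (hprod i)
      · rcases h3 with rfl | rfl
        · exact hTT _ hy _ hz (hprod i)
        · exact hyz rfl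
    rw [hTz, Finset.prod_singleton] at hn
    by_contra h0
    refine (hpp i z (hT z hz)).2 ?_
    have h2 := pp_zpow hn (Int.sign (n z))
    rw [← zpow_mul, Int.mul_sign_self, zpow_natCast] at h2
    exact pp_of_pow (Int.natAbs_pos.2 h0) h2
  · intro i z hz h
    refine (hpp i z hz).2 ⟨2, two_pos, a i, ?_⟩
    rw [sq, h, zpow_natCast]

end

end Pool.Agent.KS6_11.F
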