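import Pool.Agent.KS6_11.F.Defs
import Pool.Graph.R_pool_sql_team_seeded_b0a926ef.R919.FF.Num
import Pool.Graph.R_pool_sql_team_seeded_2aa45f1a.Q64.L.Pairs
import Pool.Graph.R_seed8.Y1.CT.Field
import Pool.Graph.R_seed8.Y1.CT.Kun

/-!
# All but few members of a family of Weil numbers have no relations with given numbers
-/

set_option autoImplicit false
set_option linter.unusedVariables false

namespace Pool.Agent.KS6_11.F

open Polynomial Pool.Agent.R919.FF Pool.Agent.Q64.L Pool.Agent.W484.HS Pool.Agent.Y1.CT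

noncomputable section

variable {p a : ℕ} {ι : Type} {f : ι → ℤ[X]}

/-- the numbers generated by `Λ` -/
def From (p : ℕ) (Λ : Set ℂ) (ρ : ℂ) : Prop :=
  ρ ≠ 0 ∧ ∃ M : ℕ, 0 < M ∧ ∃ γ ∈ mulSpan Λ, PPower p (ρ ^ M * (γ : ℂ))

/-- the span of the classes of the roots -/
def wS (hp : (p : ℂ) ≠ 0) (f : ι → ℤ[X]) (i : ι) : Submodule ℚ (QL (pu p hp)) :=
  vS (pu p hp) {z : ℂ | aeval z (f i) = 0}

/-- a nonzero number as a unit -/
def mk (z : ℂ) : ℂˣ := if h : z ≠ 0 then Units.mk0 z h else 1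

theorem mk_val {z : ℂ} (h : z ≠ 0) : (mk z : ℂ) = z := by
  rw [mk, dif_pos h]
  rfl

/-- the members outside of `S` meet the span of `Λ` in zero -/
def Avoids (hp : (p : ℂ) ≠ 0) (f : ι → ℤ[X]) (Λ : Set ℂ) (S : Set ι) : Prop :=
  vS (pu p hp) Λ ⊓ (⨆ i ∈ (Set.univ \ S : Set ι), wS hp f i) = ⊥

theorem exists_avoid (hp : (p : ℂ) ≠ 0) {a : ι → ℕ} (hf : NoRelations p a f) {Λ : Set ℂ} (hΛ : Λ.Finite) {R : ℕ}
    (hR : RankModLe p Λ R) : ∃ S : Finset ι, S.card ≤ R ∧ Avoids hp f Λ (S : Set ι) := by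
  have : Finite Λ := hΛ
  obtain ⟨S, h1, h2⟩ := pivot (K := ℚ) (wS hp f) (iSupIndep_of hf.independent) (vS (pu p hp) Λ) R Set.univ
    ((Submodule.finrank_mono inf_le_left).trans (finrank_vS hΛ hR))
  exact ⟨S, h1, h2⟩

theorem cls_from {hp : (p : ℂ) ≠ 0} {Λ : Set ℂ} {ρ : ℂ} (h : From p Λ ρ) :
    cls (pu p hp) (mk ρ) ∈ vS (pu p hp) Λ := by
  obtain ⟨h0, M, hM, γ, hγ, h1⟩ := h
  have h2 : cls (pu p hp) (mk ρ ^ M * γ) = 0 := by
    rw [cls_zero_iff]
    rwa [Units.val_mul, Units.val_pow_eq_pow_val, mk_val h0]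
  rw [cls_mul, cls_pow, ← Nat.cast_smul_eq_nsmul ℚ] at h2
  have h3 : cls (pu p hp) (mk ρ) = (M : ℚ)⁻¹ • -cls (pu p hp) γ := by
    rw [← eq_neg_of_add_eq_zero_left h2, smul_smul, inv_mul_cancel₀ (by exact_mod_cast hM.ne'), one_smul]
  rw [h3]
  exact Submodule.smul_mem _ _ (Submodule.neg_mem _ (mulSpan_cls hγ))

theorem pair_complex (hp : (p : ℂ) ≠ 0) (hf : NoRelations p (fun _ => a) f) {Λ : Set ℂ}
    (hS : vS (pu p hp) Λ ⊓ (⨆ i, wS hp f i) = ⊥) (t : ℕ) (ht : 0 < t) {ρ : ℂ} (hρ : From p Λ ρ) :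
    ExactPairK (fun z : {z : ℂ // ∃ i, aeval z (f i) = 0} => (z : ℂ) ^ t) (((p ^ a : ℕ) : ℂ) ^ t) ρ := by
  classical
  intro n e s hs hn ys hlen hrel hpw
  have hq : ((p ^ a : ℕ) : ℂ) = (p : ℂ) ^ a := by push_cast; rfl
  have hq0 : ((p ^ a : ℕ) : ℂ) ≠ 0 := by rw [hq]; exact pow_ne_zero _ hp
  have hne : (ys.map fun z : {z : ℂ // ∃ i, aeval z (f i) = 0} => (z : ℂ) ^ t).prod ≠ 0 := by
    intro h0
    rw [h0, zero_mul, zero_pow hs.ne'] at hrel
    exact pow_ne_zero _ (zpow_ne_zero _ (pow_ne_zero _ hq0)) hrel.symm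
  have hne' : ∀ y ∈ ys, (y : ℂ) ≠ 0 := by
    intro y hy h0
    apply hne
    refine List.prod_eq_zero (List.mem_map.2 ⟨y, hy, ?_⟩)
    change (y : ℂ) ^ t = 0
    rw [h0, zero_pow ht.ne']
  -- the product as a unit
  set L : List ℂ := ys.map Subtype.val with hL
  have hL0 : ∀ z ∈ L, z ≠ 0 := by
    intro z hz
    obtain ⟨y, hy, rfl⟩ := List.mem_map.1 hz
    exact hne' y hy
  set U : ℂˣ := (L.map mk).prod with hU
  have hUv : ((U : ℂˣ) : ℂ) = L.prod := by
    have h1 : ∀ L : List ℂ, (∀ z ∈ L, z ≠ 0) → (((L.map mk).prod : ℂˣ) : ℂ) = L.prod := by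
      intro L
      induction L with
      | nil => intro _; rfl
      | cons z L ih =>
        intro h
        rw [List.map_cons, List.prod_cons, List.prod_cons, Units.val_mul, mk_val (h z (by simp)),
          ih fun z' hz' => h z' (by simp [hz'])]
    exact h1 L hL0
  have hprod : (ys.map fun z : {z : ℂ // ∃ i, aeval z (f i) = 0} => (z : ℂ) ^ t).prod = L.prod ^ t := by
    have h1 : ∀ ys : List {z : ℂ // ∃ i, aeval z (f i) = 0},
        (ys.map fun z => z.val ^ t).prod = (ys.map Subtype.val).prod ^ t := by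
      intro ys
      induction ys with
      | nil => simp
      | cons y ys ih => rw [List.map_cons, List.prod_cons, List.map_cons, List.prod_cons, mul_pow, ih]
    exact h1 ys
  have hcls : cls (pu p hp) U = 0 := by
    have h1 : cls (pu p hp) ((U ^ t * mk ρ) ^ s) = 0 := by
      rw [cls_zero_iff]
      refine ⟨1, one_pos, (a * t : ℤ) * e * s, ?_⟩
      rw [pow_one, Units.val_pow_eq_pow_val, Units.val_mul, Units.val_pow_eq_pow_val, hUv, mk_val hρ.1, ← hprod,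
        hrel, hq, ← pow_mul, ← zpow_natCast (p : ℂ) (a * t), ← zpow_mul, ← zpow_natCast _ s, ← zpow_mul]
      congr 1
    rw [cls_pow, cls_mul, cls_pow, ← Nat.cast_smul_eq_nsmul ℚ, ← Nat.cast_smul_eq_nsmul ℚ] at h1
    have h2 := (smul_eq_zero.1 h1).resolve_left (by exact_mod_cast hs.ne')
    have h3 : cls (pu p hp) U = (t : ℚ)⁻¹ • -cls (pu p hp) (mk ρ) := by
      rw [← eq_neg_of_add_eq_zero_left h2, smul_smul, inv_mul_cancel₀ (by exact_mod_cast ht.ne'), one_smul]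
    have h4 : cls (pu p hp) U ∈ vS (pu p hp) Λ := by
      rw [h3]
      exact Submodule.smul_mem _ _ (Submodule.neg_mem _ (cls_from hρ))
    have h5 : cls (pu p hp) U ∈ ⨆ i, wS hp f i := by
      have h6 : ∀ ys : List {z : ℂ // ∃ i, aeval z (f i) = 0}, (∀ y ∈ ys, (y : ℂ) ≠ 0) →
          cls (pu p hp) ((ys.map fun y => mk y.val).prod) ∈ ⨆ i, wS hp f i := by
        intro ys
        induction ys with
        | nil =>
          intro _
          rw [List.map_nil, List.prod_nil, cls_one]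
          exact Submodule.zero_mem _
        | cons y ys ih =>
          intro h
          rw [List.map_cons, List.prod_cons, cls_mul]
          refine Submodule.add_mem _ ?_ (ih fun y' hy' => h y' (by simp [hy']))
          obtain ⟨i, hi⟩ := y.2
          refine Submodule.mem_iSup_of_mem i ?_
          refine mem_vS ?_
          rw [mk_val (h y (by simp))]
          exact hi
      have h7 := h6 ys hne'
      rwa [hU, hL, List.map_map]
    have h6 : cls (pu p hp) U ∈ vS (pu p hp) Λ ⊓ (⨆ i, wS hp f i) := ⟨h4, h5⟩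
    rw [hS, Submodule.mem_bot] at h6
    exact h6
  -- the multiplicities
  set T : Finset ℂ := L.toFinset with hT
  have hUT : U = ∏ z ∈ T, mk z ^ L.count z := by
    rw [hU, hT, Finset.prod_list_map_count]
  obtain ⟨y₀, hy₀⟩ : ∃ y, y ∈ ys := by
    rcases ys with _ | ⟨y, ys⟩
    · simp at hlen
      omega
    · exact ⟨y, by simp⟩
  have hι : Nonempty ι := ⟨y₀.2.choose⟩
  have hroot : ∀ z ∈ T, ∃ i : ι, aeval z (f i) = 0 := by
    intro z hz
    obtain ⟨y, hy, rfl⟩ := List.mem_map.1 (List.mem_toFinset.1 hz)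
    obtain ⟨i, hi⟩ := y.2
    exact ⟨i, hi⟩
  choose! ix hix using hroot
  have hPP : PPower p ((∏ i ∈ T.image ix, ∏ z ∈ T with ix z = i, mk z ^ L.count z : ℂˣ) : ℂ) := by
    rw [Finset.prod_fiberwise_of_maps_to (fun z hz => Finset.mem_image_of_mem ix hz), ← hUT]
    exact cls_zero_iff.1 hcls
  have h1 := hf.independent (T.image ix) (fun i => ∏ z ∈ T with ix z = i, mk z ^ L.count z) (fun i _ =>
    Subgroup.prod_mem _ fun z hz => Subgroup.pow_mem _ (Subgroup.subset_closure (by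
      obtain ⟨hz1, hz2⟩ := Finset.mem_filter.1 hz
      change aeval ((mk z : ℂˣ) : ℂ) (f i) = 0
      rw [mk_val (hL0 z (List.mem_toFinset.1 hz1)), ← hz2]
      exact (hix z hz1))) _) hPP
  have hz₀ : (y₀ : ℂ) ∈ T := List.mem_toFinset.2 (List.mem_map.2 ⟨y₀, hy₀, rfl⟩)
  have h2 := h1 (ix y₀) (Finset.mem_image_of_mem ix hz₀)
  have h3 := hf.maximal (ix y₀) (T.filter fun z => ix z = ix y₀) (fun z hz => by
      obtain ⟨hz1, hz2⟩ := Finset.mem_filter.1 hz
      rw [← hz2]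
      exact (hix z hz1)) (fun z hz z' hz' => by
      obtain ⟨hz1, hz2⟩ := Finset.mem_filter.1 hz
      obtain ⟨hz1', hz2'⟩ := Finset.mem_filter.1 hz'
      by_cases hzz : z = z'
      · subst hzz
        refine hf.ne (ix y₀) z ?_
        rw [← hz2]
        exact (hix z hz1)
      · intro hcon
        obtain ⟨y, hy, rfl⟩ := List.mem_map.1 (List.mem_toFinset.1 hz1)
        obtain ⟨y', hy', rfl⟩ := List.mem_map.1 (List.mem_toFinset.1 hz1')
        have hsym : Std.Symm (fun y y' : {z : ℂ // ∃ i, aeval z (f i) = 0} =>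
            (y : ℂ) ^ t * (y' : ℂ) ^ t ≠ ((p ^ a : ℕ) : ℂ) ^ t) :=
          ⟨fun y y' h => by rwa [mul_comm]⟩
        refine List.Pairwise.forall (R := fun y y' : {z : ℂ // ∃ i, aeval z (f i) = 0} =>
            (y : ℂ) ^ t * (y' : ℂ) ^ t ≠ ((p ^ a : ℕ) : ℂ) ^ t) hpw hy hy' (fun h => hzz (congrArg _ h)) ?_
        rw [← mul_pow, hcon, hq]) (fun z => (L.count z : ℤ)) (by
      have h4 : ((∏ z ∈ T with ix z = ix y₀, mk z ^ L.count z : ℂˣ) : ℂ) =
          ∏ z ∈ T with ix z = ix y₀, z ^ ((L.count z : ℕ) : ℤ) := by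
        push_cast
        refine Finset.prod_congr rfl fun z hz => ?_
        rw [mk_val (hL0 z (List.mem_toFinset.1 (Finset.mem_filter.1 hz).1)), zpow_natCast]
      rw [← h4]
      exact h2) y₀ (Finset.mem_filter.2 ⟨hz₀, rfl⟩)
  have h4 : 0 < L.count (y₀ : ℂ) := List.count_pos_iff.2 (List.mem_map.2 ⟨y₀, hy₀, rfl⟩)
  have h5 : L.count (y₀ : ℂ) = 0 := by exact_mod_cast h3
  omega

theorem rootsFrom_from {Λ : Set ℂ} {χ : ℚ[X]} (h : RootsFrom p Λ χ) {ρ : ℂ} (hρ : aeval ρ χ = 0) :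
    From p Λ ρ := by
  refine ⟨?_, h.2 ρ hρ⟩
  rintro rfl
  apply h.1
  rw [aeval_def, eval₂_at_zero] at hρ
  exact (_root_.map_eq_zero _).1 hρ

theorem rootsFrom_one (p : ℕ) (Λ : Set ℂ) : RootsFrom p Λ (X - 1) := by
  refine ⟨by simp, fun ρ hρ => ⟨1, one_pos, 1, Subgroup.one_mem _, 1, one_pos, 0, ?_⟩⟩
  have h1 : ρ = 1 := by
    rw [map_sub, aeval_X, map_one, sub_eq_zero] at hρ
    exact hρ
  rw [h1]
  simp

theorem good_of (hp : (p : ℂ) ≠ 0) (hf : NoRelations p (fun _ => a) f) {Λ : Set ℂ}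
    (hS : vS (pu p hp) Λ ⊓ (⨆ i, wS hp f i) = ⊥) : Good (RootsFrom p Λ) (p ^ a) f where
  monic i := hf.monic i
  one := rootsFrom_one p Λ
  coeff := fun χ h => h.1
  pair := fun L _ _ s hs χ hχ hP ρ hρ =>
    exactPair_field f (fun i => hf.monic i) (p ^ a) s χ hχ
      (fun ρ hρ => pair_complex hp hf hS s hs (rootsFrom_from hP hρ)) ρ hρ

theorem noRel_of (hp : (p : ℂ) ≠ 0) (hf : NoRelations p (fun _ => a) f) {Λ : Set ℂ}
    (hS : vS (pu p hp) Λ ⊓ (⨆ i, wS hp f i) = ⊥) : NoRel f (p ^ a) (From p Λ) where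
  monic i := hf.monic i
  one := rootsFrom_from (rootsFrom_one p Λ) (by simp)
  pair := fun s hs ρ hρ => pair_complex hp hf hS s hs hρ

/-- the roots after a base change -/
theorem mulSpan_baseChange {t : ℕ} (ht : 0 < t) {f g : ℤ[X]} (h : IsBaseChange t f g) :
    mulSpan {z : ℂ | aeval z g = 0} ≤ mulSpan {z : ℂ | aeval z f = 0} := by
  rw [mulSpan, Subgroup.closure_le]
  intro z hz
  obtain ⟨y, hy, hyz⟩ := h.2 z hz
  have hy0 : y ≠ 0 := by
    rintro rfl
    rw [zero_pow ht.ne'] at hyz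
    exact z.ne_zero hyz.symm
  have h1 : z = mk y ^ t := by
    apply Units.ext
    rw [Units.val_pow_eq_pow_val, mk_val hy0, hyz]
  rw [h1]
  refine Subgroup.pow_mem _ (Subgroup.subset_closure ?_) _
  change aeval ((mk y : ℂˣ) : ℂ) f = 0
  rw [mk_val hy0]
  exact hy

theorem vS_baseChange (hp : (p : ℂ) ≠ 0) {t : ℕ} (ht : 0 < t) {f g : ℤ[X]} (h : IsBaseChange t f g) :
    vS (pu p hp) {z : ℂ | aeval z g = 0} ≤ vS (pu p hp) {z : ℂ | aeval z f = 0} := by
  rw [vS, Submodule.span_le]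
  rintro _ ⟨z, hz, rfl⟩
  exact mulSpan_cls (mulSpan_baseChange ht h (Subgroup.subset_closure hz))

theorem baseChange {a : ι → ℕ} (hf : NoRelations p a f) {I : Type} {c : I → ι}
    (hc : Function.Injective c) {b : ℕ} {t : I → ℕ} (ht : ∀ i, 0 < t i) (hb : ∀ i, a (c i) * t i = b)
    (hb0 : 0 < b) {g : I → ℤ[X]} (hg : ∀ i, IsBaseChange (t i) (f (c i)) (g i)) :
    NoRelations p (fun _ => b) g := by
  classical
  refine ⟨fun _ => hb0, fun i => (hg i).1, ?_, ?_, ?_⟩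
  · intro F γ hγ hPP i hi
    have h1 := hf.independent (F.map ⟨c, hc⟩) (Function.extend c γ 1) (by
      intro j hj
      obtain ⟨i, hi, rfl⟩ := Finset.mem_map.1 hj
      change Function.extend c γ 1 (c i) ∈ _
      rw [hc.extend_apply]
      exact mulSpan_baseChange (ht i) (hg i) (hγ i hi)) (by
      rw [Finset.prod_map]
      have h2 : ∏ i ∈ F, Function.extend c γ 1 ((⟨c, hc⟩ : I ↪ ι) i) = ∏ i ∈ F, γ i :=
        Finset.prod_congr rfl fun i _ => hc.extend_apply _ _ _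
      rw [h2]
      exact hPP) (c i) (Finset.mem_map.2 ⟨i, hi, rfl⟩)
    rwa [hc.extend_apply] at h1
  · intro i T hT hTT n hn z hz
    have h1 : ∀ z ∈ T, ∃ y : ℂ, aeval y (f (c i)) = 0 ∧ y ^ t i = z := fun z hz => (hg i).2 z (hT z hz)
    choose! y hy1 hy2 using h1
    have hinj : ∀ z ∈ T, ∀ z' ∈ T, y z = y z' → z = z' := by
      intro z hz z' hz' h
      rw [← hy2 z hz, ← hy2 z' hz', h]
    have h2 := hf.maximal (c i) (T.image y) (by
        intro w hw
        obtain ⟨z, hz, rfl⟩ := Finset.mem_image.1 hw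
        exact hy1 z hz) (by
        intro w hw w' hw' hww
        obtain ⟨z, hz, rfl⟩ := Finset.mem_image.1 hw
        obtain ⟨z', hz', rfl⟩ := Finset.mem_image.1 hw'
        refine hTT z hz z' hz' ?_
        rw [← hy2 z hz, ← hy2 z' hz', ← mul_pow, hww, ← pow_mul, hb i])
      (fun w => (t i : ℤ) * n (w ^ t i)) (by
        rw [Finset.prod_image hinj]
        have h3 : ∏ z ∈ T, y z ^ ((t i : ℤ) * n (y z ^ t i)) = ∏ z ∈ T, z ^ n z := by
          refine Finset.prod_congr rfl fun z hz => ?_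
          rw [hy2 z hz, zpow_mul, zpow_natCast, hy2 z hz]
        rw [h3]
        exact hn) (y z) (Finset.mem_image_of_mem y hz)
    have h3 : (t i : ℤ) * n (y z ^ t i) = 0 := h2
    rw [hy2 z hz] at h3
    exact (mul_eq_zero.1 h3).resolve_left (by exact_mod_cast (ht i).ne')
  · intro i z hz hzz
    obtain ⟨y, hy1, hy2⟩ := (hg i).2 z hz
    have h1 := hf.maximal (c i) {y} (by simpa using hy1) (by
        intro w hw w' hw'
        rw [Finset.mem_singleton] at hw hw'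
        subst hw
        subst hw'
        exact hf.ne (c i) _ hy1) (fun _ => 1) (by
        rw [Finset.prod_singleton, zpow_one]
        refine ⟨t i * 2, Nat.mul_pos (ht i) two_pos, b, ?_⟩
        rw [pow_mul, hy2, sq, hzz, zpow_natCast]) y (Finset.mem_singleton_self y)
    exact one_ne_zero h1

/-- the members outside of `S` which are defined over the field with `p ^ b` elements -/
theorem avoid_baseChange (hp : (p : ℂ) ≠ 0) {Λ : Set ℂ} {S : Set ι} (hS : Avoids hp f Λ S) {I : Type} {c : I → ι}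
    (hcS : ∀ i, c i ∉ S) {t : I → ℕ} (ht : ∀ i, 0 < t i) {g : I → ℤ[X]}
    (hg : ∀ i, IsBaseChange (t i) (f (c i)) (g i)) : vS (pu p hp) Λ ⊓ (⨆ i, wS hp g i) = ⊥ := by
  rw [eq_bot_iff, ← hS]
  refine inf_le_inf_left _ (iSup_le fun i => ?_)
  refine le_trans (vS_baseChange hp (ht i) (hg i)) ?_
  exact le_iSup₂_of_le (c i) ⟨Set.mem_univ _, hcS i⟩ le_rfl

/-- **All but at most `R` members**. -/
theorem few {a : ι → ℕ} (hpr : p.Prime) (hf : NoRelations p a f) {Λ : Set ℂ} (hΛ : Λ.Finite) {R : ℕ}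
    (hR : RankModLe p Λ R) : ∃ S : Finset ι, S.card ≤ R ∧ ∀ b : ℕ, 0 < b →
      ∀ g : {i : ι // i ∉ S ∧ a i ∣ b} → ℤ[X], (∀ i, IsBaseChange (b / a i.1) (f i.1) (g i)) →
        1 < p ^ b ∧ Good (RootsFrom p Λ) (p ^ b) g ∧ NoRel g (p ^ b) (From p Λ) := by
  have hp : (p : ℂ) ≠ 0 := Nat.cast_ne_zero.2 hpr.ne_zero
  obtain ⟨S, h1, h2⟩ := exists_avoid hp hf hΛ hR
  refine ⟨S, h1, fun b hb g hg => ?_⟩
  have ht : ∀ i : {i : ι // i ∉ S ∧ a i ∣ b}, 0 < b / a i.1 := fun i =>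
    Nat.div_pos (Nat.le_of_dvd hb i.2.2) (hf.pos i.1)
  have h3 := baseChange (c := fun i : {i : ι // i ∉ S ∧ a i ∣ b} => i.1) hf Subtype.val_injective
    (t := fun i => b / a i.1) ht (fun i => Nat.mul_div_cancel' i.2.2) hb (g := g) hg
  have h4 := avoid_baseChange (c := fun i : {i : ι // i ∉ S ∧ a i ∣ b} => i.1) hp h2 (fun i => i.2.1)
    (t := fun i => b / a i.1) ht (g := g) hg
  exact ⟨Nat.one_lt_pow hb.ne' hpr.one_lt, good_of hp h3 h4, noRel_of hp h3 h4⟩

end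

end Pool.Agent.KS6_11.F
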