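import Pool.Agent.KS6_11.F.Few
import Pool.Agent.KS6_74.OP.Good

/-!
# Weil numbers supported at one place have no relations
-/

set_option autoImplicit false
set_option linter.unusedVariables false
set_option linter.unusedSectionVars false

namespace Pool.Agent.KS6_11.F

open NumberField Polynomial IntermediateField Pool.Agent.TH121.KT Pool.Agent.KS6_5.SP
  Pool.Agent.R919.FF Pool.Agent.Y1.CT

noncomputable section

theorem pp_mul {p : ℕ} {x y : ℂ} (hx : PPower p x) (hy : PPower p y) : PPower p (x * y) := by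
  obtain ⟨M, hM, c, h1⟩ := hx
  obtain ⟨M', hM', c', h2⟩ := hy
  by_cases hp : (p : ℂ) = 0
  · rcases eq_or_ne (x * y) 0 with h0 | h0
    · have h3 : (x = 0 ∨ y = 0) := mul_eq_zero.1 h0
      rcases h3 with h3 | h3
      · refine ⟨M, hM, c, ?_⟩
        rw [h0, ← h3, h1]
      · refine ⟨M', hM', c', ?_⟩
        rw [h0, ← h3, h2]
    · obtain ⟨hx0, hy0⟩ := mul_ne_zero_iff.1 h0
      have h3 : c = 0 := by
        by_contra hc
        rw [hp, zero_zpow c hc] at h1
        exact pow_ne_zero M hx0 h1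
      have h4 : c' = 0 := by
        by_contra hc
        rw [hp, zero_zpow c' hc] at h2
        exact pow_ne_zero M' hy0 h2
      refine ⟨M * M', Nat.mul_pos hM hM', 0, ?_⟩
      rw [h3, zpow_zero] at h1
      rw [h4, zpow_zero] at h2
      rw [mul_pow, pow_mul, h1, mul_comm M M', pow_mul, h2, one_pow, one_pow, zpow_zero, one_mul]
  · refine ⟨M * M', Nat.mul_pos hM hM', c * M' + c' * M, ?_⟩
    rw [mul_pow, pow_mul, h1, mul_comm M M', pow_mul, h2, zpow_add₀ hp, zpow_mul, zpow_mul, zpow_natCast,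
      zpow_natCast]

theorem pp_zpow {p : ℕ} {x : ℂ} (hx : PPower p x) (n : ℤ) : PPower p (x ^ n) := by
  obtain ⟨M, hM, c, h1⟩ := hx
  refine ⟨M, hM, c * n, ?_⟩
  rw [← zpow_natCast, ← zpow_mul, mul_comm, zpow_mul, zpow_natCast, h1, zpow_mul]

theorem pp_of_pow {p : ℕ} {x : ℂ} {n : ℕ} (hn : 0 < n) (hx : PPower p (x ^ n)) : PPower p x := by
  obtain ⟨M, hM, c, h1⟩ := hx
  exact ⟨n * M, Nat.mul_pos hn hM, c, by rw [pow_mul, h1]⟩

theorem pp_one (p : ℕ) : PPower p 1 := ⟨1, one_pos, 0, by simp⟩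

theorem pp_prod {p : ℕ} {κ : Type*} (s : Finset κ) (g : κ → ℂ) (h : ∀ i ∈ s, PPower p (g i)) :
    PPower p (∏ i ∈ s, g i) := by
  classical
  induction s using Finset.induction_on with
  | empty => rw [Finset.prod_empty]; exact pp_one p
  | insert a s ha ih =>
    rw [Finset.prod_insert ha]
    exact pp_mul (h a (Finset.mem_insert_self _ _)) (ih fun i hi => h i (Finset.mem_insert_of_mem hi))

theorem pp_pow (p a : ℕ) : PPower p ((p : ℂ) ^ a) := ⟨1, one_pos, a, by simp⟩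

variable {p : ℕ} [Fact p.Prime] {a : ℕ}

theorem cjS_cjS {I : Type} {E : I → Type} [∀ i, Field (E i)] [∀ i, NumberField (E i)] [∀ i, IsCMField (E i)]
    (x : Σ i, (E i →+* Qb)) : cjS (cjS x) = x := by
  obtain ⟨i, σ⟩ := x
  change (⟨i, cj (cj σ)⟩ : Σ i, (E i →+* Qb)) = ⟨i, σ⟩
  rw [cj_cj]

/-- the involution as an equivalence -/
def cjE {I : Type} (E : I → Type) [∀ i, Field (E i)] [∀ i, NumberField (E i)] [∀ i, IsCMField (E i)] :
    (Σ i, (E i →+* Qb)) ≃ Σ i, (E i →+* Qb) where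
  toFun := cjS
  invFun := cjS
  left_inv := cjS_cjS
  right_inv := cjS_cjS

section finite

variable {I : Type} {E : I → Type}
  [∀ i, Field (E i)] [∀ i, NumberField (E i)] [∀ i, IsCMField (E i)] {π : ∀ i, E i}

theorem v_mul (h : ∀ i, IsWeilOne p a (π i)) (x : Σ i, (E i →+* Qb)) :
    x.2 (π x.1) * (cjS x).2 (π x.1) = (p : Qb) ^ a := by
  change x.2 (π x.1) * x.2 (IsCMField.complexConj _ (π x.1)) = _
  rw [← map_mul, (h x.1).weight, map_pow, map_natCast]

theorem v_ne (h : ∀ i, IsWeilOne p a (π i)) (x : Σ i, (E i →+* Qb)) : x.2 (π x.1) ≠ 0 := by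
  intro h0
  have h1 := v_mul h x
  rw [h0, zero_mul] at h1
  exact natp_ne p a h1.symm

variable [Fintype I] {F : IntermediateField ℚ Qb} [FiniteDimensional ℚ F]

theorem balanced_nat (H : OnePlaceWeilOne p a F π) (N : (Σ i, (E i →+* Qb)) → ℕ) (M : ℕ) (hM : 0 < M) (c : ℤ)
    (hrel : (∏ x : Σ i, (E i →+* Qb), (x.2 (π x.1)) ^ N x) ^ M = (p : Qb) ^ c) (x : Σ i, (E i →+* Qb)) :
    N x = N (cjS x) := by
  classical
  obtain ⟨ιp⟩ : Nonempty (Qb →ₐ[ℚ] PadicAlgCl p) := ⟨IsAlgClosed.lift⟩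
  have hp0 : (p : Qb) ≠ 0 := Nat.cast_ne_zero.2 (Fact.out : p.Prime).ne_zero
  have hal : ∀ x : Σ i, (E i →+* Qb), (x.2 (π x.1)) ^ 2 = x.2 (angle p a (π x.1)) * (p : Qb) ^ a := by
    intro x
    rw [angle, map_div₀, map_pow, map_pow, map_natCast, div_mul_cancel₀ _ (natp_ne p a)]
  have hrel2 : (∏ x : Σ i, (E i →+* Qb), (x.2 (angle p a (π x.1))) ^ (M * N x)) * (1 : Qb) ^ 1 =
      (((p : ℚ) ^ (2 * c - a * M * ∑ x, (N x : ℤ)) : ℚ) : Qb) := by
    have h1 := congrArg (fun z => z ^ 2) hrel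
    have h2 : ((∏ x : Σ i, (E i →+* Qb), (x.2 (π x.1)) ^ N x) ^ M) ^ 2 =
        (∏ x : Σ i, (E i →+* Qb), (x.2 (angle p a (π x.1))) ^ (M * N x)) *
          (p : Qb) ^ (a * M * ∑ x, (N x : ℤ)) := by
      rw [← Finset.prod_pow, ← Finset.prod_pow]
      have h3 : ∀ x : Σ i, (E i →+* Qb), (((x.2 (π x.1)) ^ N x) ^ M) ^ 2 =
          (x.2 (angle p a (π x.1))) ^ (M * N x) * ((p : Qb) ^ a) ^ (M * N x) := by
        intro x
        rw [← mul_pow, ← hal, ← pow_mul, ← pow_mul, ← pow_mul]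
        congr 1
        ring
      rw [Finset.prod_congr rfl fun x _ => h3 x, Finset.prod_mul_distrib, Finset.prod_pow_eq_pow_sum,
        ← Finset.mul_sum, ← pow_mul, ← zpow_natCast (p : Qb)]
      congr 2
      push_cast
      ring
    change ((∏ x : Σ i, (E i →+* Qb), (x.2 (π x.1)) ^ N x) ^ M) ^ 2 = ((p : Qb) ^ c) ^ 2 at h1
    rw [h2] at h1
    rw [one_pow, mul_one]
    push_cast
    rw [zpow_sub₀ hp0, eq_div_iff (zpow_ne_zero _ hp0), h1, ← zpow_natCast ((p : Qb) ^ c) 2, ← zpow_mul, mul_comm]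
    rfl
  refine balanced_qb H.family ιp N (fun _ => M) (fun _ => hM) 1 1 one_ne_zero _ hrel2 x (Or.inr ?_)
  obtain ⟨c', hc'⟩ := small_one (H.weil x.1).angle
  refine ⟨c', fun σ l l' hl => ?_⟩
  have h1 := hc' σ l l' hl
  have hM' : (1 : ℝ) ≤ M := by exact_mod_cast hM
  push_cast
  have h2 : (0 : ℝ) ≤ |Real.log ‖l 1‖ - c'| := abs_nonneg _
  have h3 : (0 : ℝ) ≤ |Real.log ‖l' (σ (angle p a (π x.1)))‖| := abs_nonneg _
  nlinarith

/-- integral exponents -/
theorem balanced_int (H : OnePlaceWeilOne p a F π) (τ : Qb →+* ℂ) (m : (Σ i, (E i →+* Qb)) → ℤ)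
    (hrel : PPower p (τ (∏ x : Σ i, (E i →+* Qb), (x.2 (π x.1)) ^ m x))) (x : Σ i, (E i →+* Qb)) :
    m x = m (cjS x) := by
  classical
  have hp0 : (p : Qb) ≠ 0 := Nat.cast_ne_zero.2 (Fact.out : p.Prime).ne_zero
  let N : (Σ i, (E i →+* Qb)) → ℕ := fun x => (m x).toNat + (-(m (cjS x))).toNat
  have h1 : ∏ x : Σ i, (E i →+* Qb), (x.2 (π x.1)) ^ N x =
      (∏ x : Σ i, (E i →+* Qb), (x.2 (π x.1)) ^ m x) * ∏ x, ((p : Qb) ^ a) ^ (-(m x)).toNat := by
    have h2 : ∏ x : Σ i, (E i →+* Qb), (x.2 (π x.1)) ^ (-(m (cjS x))).toNat =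
        ∏ x : Σ i, (E i →+* Qb), ((cjS x).2 (π x.1)) ^ (-(m x)).toNat := by
      refine (Fintype.prod_equiv (cjE E) _ _ fun x => ?_)
      change _ = ((cj (cj x.2)) (π x.1)) ^ (-(m (cjS x))).toNat
      rw [cj_cj]
    rw [Finset.prod_congr rfl fun x _ => pow_add _ _ _, Finset.prod_mul_distrib, h2, ← Finset.prod_mul_distrib,
      ← Finset.prod_mul_distrib]
    refine Finset.prod_congr rfl fun x _ => ?_
    rw [← v_mul H.weil x, mul_pow, ← mul_assoc]
    congr 1
    rw [← zpow_natCast, ← zpow_natCast, ← zpow_add₀ (v_ne H.weil x)]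
    congr 1
    omega
  obtain ⟨M, hM, c, h2⟩ : PPower p (τ (∏ x : Σ i, (E i →+* Qb), (x.2 (π x.1)) ^ N x)) := by
    rw [h1, map_mul]
    refine pp_mul hrel ?_
    rw [map_prod]
    refine pp_prod _ _ fun x _ => ?_
    rw [map_pow, map_pow, map_natCast, ← pow_mul]
    exact pp_pow _ _
  have h3 := balanced_nat H N M hM c (by
    apply τ.injective
    rw [map_pow, h2, map_zpow₀, map_natCast])
  have h4 := h3 x
  have h5 : (m x).toNat + (-(m (cjS x))).toNat = (m (cjS x)).toNat + (-(m x)).toNat := by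
    have h6 : N (cjS x) = (m (cjS x)).toNat + (-(m x)).toNat := by
      change (m (cjS x)).toNat + (-(m (cjS (cjS x)))).toNat = _
      rw [cjS_cjS]
    rw [← h6]
    exact h4
  omega

end finite

theorem v_mul' {ι : Type} {E : ι → Type} [∀ i, Field (E i)] [∀ i, NumberField (E i)] [∀ i, IsCMField (E i)]
    {π : ∀ i, E i} {a : ι → ℕ} (h : ∀ i, IsWeilOne p (a i) (π i)) (i : ι) (σ : E i →+* Qb) :
    σ (π i) * cj σ (π i) = (p : Qb) ^ a i := by
  change σ (π i) * σ (IsCMField.complexConj _ (π i)) = _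
  rw [← map_mul, (h i).weight, map_pow, map_natCast]

theorem v_ne' {ι : Type} {E : ι → Type} [∀ i, Field (E i)] [∀ i, NumberField (E i)] [∀ i, IsCMField (E i)]
    {π : ∀ i, E i} {a : ι → ℕ} (h : ∀ i, IsWeilOne p (a i) (π i)) (i : ι) (σ : E i →+* Qb) : σ (π i) ≠ 0 := by
  intro h0
  have h1 := v_mul' h i σ
  rw [h0, zero_mul] at h1
  exact natp_ne p (a i) h1.symm

/-! ### Powers -/

theorem weil_pow {E : Type} [Field E] [NumberField E] [IsCMField E] {π : E} (h : IsWeilOne p a π) {t : ℕ}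
    (ht : 0 < t) : IsWeilOne p (a * t) (π ^ t) where
  integral := h.integral.pow t
  weight := by rw [map_pow, ← mul_pow, h.weight, pow_mul]
  powers s hs := by
    rw [← pow_mul]
    exact h.powers _ (Nat.mul_pos ht hs)

theorem angle_pow {E : Type} [Field E] (π : E) (t : ℕ) : angle p (a * t) (π ^ t) = angle p a π ^ t := by
  rw [angle, angle, div_pow, ← pow_mul, ← pow_mul, ← pow_mul, mul_comm t 2]

theorem atOnePlace_pow {F : IntermediateField ℚ Qb} {E : Type} [Field E] {α : E} (h : AtOnePlace p F α) (t : ℕ) :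
    AtOnePlace p F (α ^ t) := by
  intro σ l l' h1 h2
  refine h σ l l' (fun h3 => h1 ?_) (fun h3 => h2 ?_)
  · rw [map_pow, map_pow, norm_pow, h3, one_pow]
  · rw [map_pow, map_pow, norm_pow, h3, one_pow]

/-- integral exponents, different fields of definition -/
theorem balanced_int' {I : Type} [Fintype I] {E : I → Type} [∀ i, Field (E i)] [∀ i, NumberField (E i)]
    [∀ i, IsCMField (E i)] {π : ∀ i, E i} {F : IntermediateField ℚ Qb} [FiniteDimensional ℚ F] {a : I → ℕ}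
    (ha : ∀ i, 0 < a i) (hW : ∀ i, IsWeilOne p (a i) (π i)) (hR : ∀ i, ContainsReal F (E i))
    (hP : ∀ i, AtOnePlace p F (angle p (a i) (π i))) (hI : Incommensurable fun i => angle p (a i) (π i))
    (τ : Qb →+* ℂ) (m : (Σ i, (E i →+* Qb)) → ℤ)
    (hrel : PPower p (τ (∏ x : Σ i, (E i →+* Qb), (x.2 (π x.1)) ^ m x))) (x : Σ i, (E i →+* Qb)) :
    m x = m (cjS x) := by
  classical
  set A : ℕ := ∏ i, a i with hA
  have hA0 : 0 < A := Finset.prod_pos fun i _ => ha i
  have hd : ∀ i, a i ∣ A := fun i => Finset.dvd_prod_of_mem a (Finset.mem_univ i)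
  have ht : ∀ i, 0 < A / a i := fun i => Nat.div_pos (Nat.le_of_dvd hA0 (hd i)) (ha i)
  have hAt : ∀ i, a i * (A / a i) = A := fun i => Nat.mul_div_cancel' (hd i)
  have hang : ∀ i, angle p A (π i ^ (A / a i)) = angle p (a i) (π i) ^ (A / a i) := by
    intro i
    rw [← angle_pow, hAt i]
  have H : OnePlaceWeilOne p A F (fun i => π i ^ (A / a i)) := by
    refine ⟨fun i => ?_, hR, fun i => ?_, ?_⟩
    · have h1 := weil_pow (hW i) (ht i)
      rwa [hAt i] at h1
    · rw [hang i]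
      exact atOnePlace_pow (hP i) _
    · intro i j hij σ τ' m n hm hn h
      beta_reduce at h
      rw [hang i, hang j, map_pow, map_pow, ← pow_mul, ← pow_mul] at h
      exact hI i j hij σ τ' _ _ (Nat.mul_pos (ht i) hm) (Nat.mul_pos (ht j) hn) h
  have h1 := balanced_int H τ (fun x => a x.1 * m x) (by
    have h2 : ∏ x : Σ i, (E i →+* Qb), (x.2 (π x.1 ^ (A / a x.1))) ^ ((a x.1 : ℤ) * m x) =
        (∏ x : Σ i, (E i →+* Qb), (x.2 (π x.1)) ^ m x) ^ A := by
      rw [← Finset.prod_pow]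
      refine Finset.prod_congr rfl fun x _ => ?_
      rw [map_pow, ← zpow_natCast, ← zpow_mul, ← zpow_natCast, ← zpow_mul]
      congr 1
      have h3 : ((a x.1 : ℕ) : ℤ) * ((A / a x.1 : ℕ) : ℤ) = A := by exact_mod_cast hAt x.1
      rw [← mul_assoc, mul_comm (((A / a x.1 : ℕ) : ℤ)), h3, mul_comm]
    rw [h2, map_pow]
    exact pp_zpow hrel A) x
  have h2 : (a x.1 : ℤ) * m x = a x.1 * m (cjS x) := h1
  exact mul_left_cancel₀ (by exact_mod_cast (ha x.1).ne') h2

section infinite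

variable {ι : Type} {E : ι → Type} [∀ i, Field (E i)] [∀ i, NumberField (E i)] [∀ i, IsCMField (E i)]
  {π : ∀ i, E i} {F : IntermediateField ℚ Qb} [FiniteDimensional ℚ F] {a : ι → ℕ}

/-- elements of the group generated by the roots -/
theorem mulSpan_roots (hW : ∀ i, IsWeilOne p (a i) (π i)) {f : ι → ℤ[X]} (hf : ∀ i, IsPolyOf (π i) (f i))
    (τ : Qb →+* ℂ) (i : ι) {γ : ℂˣ} (hγ : γ ∈ mulSpan {z : ℂ | aeval z (f i) = 0}) :
    ∃ m : (E i →+* Qb) → ℤ, (γ : ℂ) = τ (∏ σ, (σ (π i)) ^ m σ) := by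
  classical
  rw [mulSpan] at hγ
  have hne : ∀ σ : E i →+* Qb, σ (π i) ≠ 0 := fun σ => v_ne' hW i σ
  induction hγ using Subgroup.closure_induction with
  | mem x hx =>
    obtain ⟨φ, hφ⟩ := (hf i).2 (x : ℂ) hx
    obtain ⟨σ, hσ⟩ := exists_lift τ φ
    refine ⟨Pi.single σ 1, ?_⟩
    rw [Finset.prod_eq_single σ]
    · rw [Pi.single_eq_same, zpow_one, ← hφ, ← hσ]
      rfl
    · intro ρ _ hρ
      rw [Pi.single_eq_of_ne hρ, zpow_zero]
    · intro h
      exact absurd (Finset.mem_univ _) h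
  | one => exact ⟨0, by simp⟩
  | mul x y _ _ hx hy =>
    obtain ⟨m, hm⟩ := hx
    obtain ⟨m', hm'⟩ := hy
    refine ⟨m + m', ?_⟩
    rw [Units.val_mul, hm, hm', ← map_mul, ← Finset.prod_mul_distrib]
    congr 1
    exact Finset.prod_congr rfl fun σ _ => by rw [Pi.add_apply, zpow_add₀ (hne σ)]
  | inv x _ hx =>
    obtain ⟨m, hm⟩ := hx
    refine ⟨-m, ?_⟩
    rw [Units.val_inv_eq_inv_val, hm, ← map_inv₀, ← Finset.prod_inv_distrib]
    congr 1
    exact Finset.prod_congr rfl fun σ _ => by rw [Pi.neg_apply, zpow_neg]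

theorem noRelations_onePlace (ha : ∀ i, 0 < a i) (hW : ∀ i, IsWeilOne p (a i) (π i)) (hR : ∀ i, ContainsReal F (E i))
    (hP : ∀ i, AtOnePlace p F (angle p (a i) (π i))) (hI : Incommensurable fun i => angle p (a i) (π i))
    {f : ι → ℤ[X]} (hf : ∀ i, IsPolyOf (π i) (f i)) : NoRelations p a f := by
  classical
  let τ : Qb →+* ℂ := (IsAlgClosed.lift : Qb →ₐ[ℚ] ℂ).toRingHom
  have hcne : ∀ (i : ι) (σ : E i →+* Qb), cj σ ≠ σ := by
    intro i σ h
    have h2 : ∀ x : E i, IsCMField.complexConj (E i) x = x := fun x => σ.injective (RingHom.congr_fun h x)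
    exact IsCMField.complexConj_ne_one (E i) (AlgEquiv.ext h2)
  have hinj : ∀ (i : ι) (σ ρ : E i →+* Qb), σ (π i) = ρ (π i) → σ = ρ := by
    intro i σ ρ h
    have h1 := (hW i).powers 1 one_pos
    rw [pow_one] at h1
    refine RingHom.ext fun x => ?_
    have hx : x ∈ IntermediateField.adjoin ℚ {π i} := by
      rw [h1]
      exact IntermediateField.mem_top
    induction hx using IntermediateField.adjoin_induction with
    | mem x hx =>
      rw [Set.mem_singleton_iff.1 hx]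
      exact h
    | algebraMap r => rw [eq_ratCast, map_ratCast, map_ratCast]
    | add x y _ _ hx hy => rw [map_add, map_add, hx, hy]
    | mul x y _ _ hx hy => rw [map_mul, map_mul, hx, hy]
    | inv x _ hx => rw [map_inv₀, map_inv₀, hx]
  refine ⟨ha, fun i => (hf i).1, ?_, ?_, ?_⟩
  · intro F' γ hγ hPP i hi
    have h1 : ∀ i : F', ∃ m : (E i.1 →+* Qb) → ℤ, (γ i.1 : ℂ) = τ (∏ σ, (σ (π i.1)) ^ m σ) := fun i =>
      mulSpan_roots hW hf τ i.1 (hγ i.1 i.2)
    choose m hm using h1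
    have h2 : ((∏ i ∈ F', γ i : ℂˣ) : ℂ) = τ (∏ x : Σ i : F', (E i.1 →+* Qb), (x.2 (π x.1.1)) ^ m x.1 x.2) := by
      rw [Fintype.prod_sigma, map_prod, ← Finset.prod_coe_sort]
      push_cast
      exact Finset.prod_congr rfl fun i _ => hm i
    rw [h2] at hPP
    have h3 := balanced_int' (F := F) (I := F') (E := fun i => E i.1) (π := fun i => π i.1) (a := fun i => a i.1)
      (fun i => ha i.1) (fun i => hW i.1) (fun i => hR i.1) (fun i => hP i.1)
      (fun i j hij => hI i.1 j.1 fun h => hij (Subtype.ext h)) τ (fun x => m x.1 x.2) hPP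
    refine pp_of_pow (n := 2) two_pos ?_
    have h4 : (γ i : ℂ) ^ 2 = τ (∏ σ : E i →+* Qb, ((p : Qb) ^ a i) ^ m ⟨i, hi⟩ σ) := by
      rw [sq]
      have h5 : ∏ σ : E i →+* Qb, (σ (π i)) ^ m ⟨i, hi⟩ σ = ∏ σ : E i →+* Qb, (cj σ (π i)) ^ m ⟨i, hi⟩ σ := by
        refine Fintype.prod_equiv ⟨cj, cj, cj_cj, cj_cj⟩ _ _ fun σ => ?_
        change _ = (cj (cj σ) (π i)) ^ m ⟨i, hi⟩ (cj σ)
        rw [cj_cj]
        congr 1
        exact h3 ⟨⟨i, hi⟩, σ⟩
      nth_rewrite 2 [hm ⟨i, hi⟩]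
      rw [h5, hm ⟨i, hi⟩, ← map_mul, ← Finset.prod_mul_distrib]
      congr 1
      refine Finset.prod_congr rfl fun σ _ => ?_
      rw [← mul_zpow]
      congr 1
      exact v_mul' hW i σ
    rw [h4, map_prod]
    refine pp_prod _ _ fun σ _ => ?_
    rw [map_zpow₀, map_pow, map_natCast]
    exact pp_zpow (pp_pow p (a i)) _
  · intro i T hT hTT n hn z hz
    -- the exponents
    let e : (E i →+* Qb) → ℤ := fun σ => if τ (σ (π i)) ∈ T then n (τ (σ (π i))) else 0
    have hT' : ∀ z ∈ T, ∃ σ : E i →+* Qb, τ (σ (π i)) = z := by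
      intro z hz
      obtain ⟨φ, hφ⟩ := (hf i).2 z (hT z hz)
      obtain ⟨σ, hσ⟩ := exists_lift τ φ
      exact ⟨σ, by rw [← hφ, ← hσ]; rfl⟩
    choose! s hs using hT'
    have h1 : ∏ z ∈ T, z ^ n z = τ (∏ σ : E i →+* Qb, (σ (π i)) ^ e σ) := by
      rw [map_prod, ← Finset.prod_subset (Finset.subset_univ (T.image s))]
      · rw [Finset.prod_image]
        · refine Finset.prod_congr rfl fun z hz => ?_
          have h2 : e (s z) = n z := by
            change (if τ (s z (π i)) ∈ T then n (τ (s z (π i))) else 0) = _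
            rw [hs z hz, if_pos hz]
          rw [map_zpow₀, h2, hs z hz]
        · intro z hz z' hz' h
          rw [← hs z hz, ← hs z' hz', h]
      · intro σ _ hσ
        have h2 : e σ = 0 := by
          refine if_neg fun h => hσ (Finset.mem_image.2 ⟨_, h, ?_⟩)
          exact hinj i _ _ (τ.injective (hs _ h))
        rw [h2, zpow_zero, map_one]
    have hU : OnePlaceWeilOne p (a i) F (fun _ : Unit => π i) :=
      ⟨fun _ => hW i, fun _ => hR i, fun _ => hP i, fun j k hjk => absurd (Subsingleton.elim j k) hjk⟩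
    have h2 := balanced_int hU τ (fun x => e x.2) (by
      rw [h1] at hn
      rw [Fintype.prod_sigma, Fintype.prod_unique]
      exact hn) ⟨(), s z⟩
    have h3 : e (s z) = n z := by
      change (if τ (s z (π i)) ∈ T then n (τ (s z (π i))) else 0) = _
      rw [hs z hz, if_pos hz]
    have h4 : e (cj (s z)) = 0 := by
      refine if_neg fun h => hTT z hz _ h ?_
      have h5 := congrArg τ (v_mul' hW i (s z))
      rw [map_mul, map_pow, map_natCast] at h5
      rw [← h5]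
      congr 1
      exact (hs z hz).symm
    rw [← h3, ← h4]
    exact h2
  · intro i z hz hzz
    obtain ⟨φ, hφ⟩ := (hf i).2 z hz
    obtain ⟨σ, hσ⟩ := exists_lift τ φ
    have h1 : τ (σ (π i)) = z := by rw [← hφ, ← hσ]; rfl
    have h2 : σ (π i) = cj σ (π i) := by
      have h3 : σ (π i) * σ (π i) = (p : Qb) ^ a i := by
        apply τ.injective
        rw [map_mul, h1, hzz, map_pow, map_natCast]
      have h4 := v_mul' hW i σ
      have h5 : σ (π i) * σ (π i) = σ (π i) * cj σ (π i) := h3.trans h4.symm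
      exact mul_left_cancel₀ (v_ne' hW i σ) h5
    exact hcne i σ (hinj i _ _ h2).symm

end infinite

end

end Pool.Agent.KS6_11.F
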